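import Pool.Agent.H853.OrdP
import Pool.Graph.R_pool_sql_team_seeded_620a6dc7.Results.MP_db07cb_ag.TensorRoots

/-!
# Ordinary primes for intersection cohomology: multiplications by fields of degree `p` and `2 p`

The library's criterion for ordinary primes has a hypothesis on the Galois group: some element `γ` of
the absolute Galois group of `K` has sufficiently long orbits on the embeddings of the fields of
multiplications (`MotSystem.Admissible`). The identity satisfies it only for the pieces `A` whose
vertices of the Hodge polygons have defect at most one (elliptic curves, abelian surfaces, K3 surfaces,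
...; `Small` below). Here the hypothesis is removed for large defects: we find such an element, by a
counting argument in the Sylow subgroups.

Let `K` be a finite extension of the number field `K₀`, and let `A i` be finitely many pure motives over
`K` with multiplication by totally real or CM fields (the `ℓ`-adic monodromy groups over `K` are
connected). Let `E j` be finitely many number fields, `p j` prime numbers, and `S j` sets of embeddings
of `E j` into the algebraic closure which are stable under the Galois group of `K` (for example: all
embeddings). Every `A i` has defects at most one, or its field of multiplications contains one of the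
fields `E j`, the parts of `A i` with a vertex belong to `S j`, and the defects of the vertices are at
most `p j` (`2 p j` at the middle, if the field of multiplications of `A i` is CM with `E j` in its real
subfield): `SmallOver`.

(1) Suppose that all `p j` are equal to `p`, `p` divides the degrees `[E j : ℚ]` and does not divide
`[K : ℚ]`, and the sum of the cardinalities of the `S j` is at most `p ^ 2`. Then every variety over
`K₀` whose intersection cohomology is, over `K`, in the class generated by the `A i` under direct sums,
tensor products, twists, duals, direct summands and roots of tensor powers (the class `Generated` of the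
library) has a set of ordinary places of positive lower density.
(2) The same holds for several prime numbers, if for every `q` the sum of the cardinalities of the `S j`
with `p j = q` is at most `q ^ 2`, and the orbits on them, under the elements of the Galois group which
fix the embeddings in the sets `S j'` with `p j' ≠ q`, have lengths divisible by `q`.

For example (if the monodromy groups are connected over `K` with `p ∤ [K : ℚ]`, such as `K = ℚ`):
* abelian varieties of dimension `2 p` with multiplication by a totally real field of degree `p`, all
  their powers, and products with elliptic curves, abelian surfaces, K3 surfaces and so on;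
* abelian varieties of `GL₂`-type with multiplication by a totally real field of degree `2 p`
  (or a product of at most `p / 2` of them), and of degree `p` (at most `p` different fields);
* motives of K3 type over a totally real field of degree `p` (surfaces with `p_g = p`, Hodge numbers
  `(1, n - 2, 1)` for each embedding), or over a CM field of degree `2 p` (`p_g = p`);
* abelian varieties of dimension `n p` with multiplication by a CM field of degree `2 p` and signature
  `(1, n - 1)` at each place, and of dimension `4 p` with signature `(2, 2)` at each place.
The group theoretic lemma is sharp: the group `(ℤ/p) ^ 2` acts on `p + 1` sets with `p` elements so that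
all orbits have length `p` and each element has a fixed point.
-/

set_option autoImplicit false

namespace Pool.Agent.Results.MP_db07cb_ag.PrimeDegreeMultiplications

open NumberField IsDedekindDomain Polynomial Filter Topology
open Pool.Agent.W401.Cheb Pool.Agent.W528.Ord Pool.Agent.Helper382_Ord
open Pool.Agent.H853.OrdP
open Pool.Agent.Results.MP_db07cb_ag.TensorRoots (StrictlyCompatible Ordinary)

/-- All families `V` of strictly compatible systems over `K₀` (for example, the intersection cohomology
of a projective variety in all degrees) which are over `K` in the class generated by the `A i` have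
infinitely many ordinary places, of positive lower density. -/
def GeneratedOrdinary (K₀ : Type) {K : Type} [Field K₀] [NumberField K₀] [Field K] [NumberField K]
    [Algebra K₀ K] {ℓ : ℕ} [Fact ℓ.Prime] {ι : Type} (A : ι → MotSystem K ℓ) : Prop :=
  ∀ (T : Finset ℕ) (ν : Type) [Finite ν] (r : ν → ℕ)
    (V : ∀ (i : ν) (ℓ' : ℕ) [Fact ℓ'.Prime], GK K₀ →* Matrix.GeneralLinearGroup (Fin (r i)) ℚ_[ℓ'])
    (F : ν → HeightOneSpectrum (𝓞 K₀) → ℤ[X]) (H : ν → Multiset ℕ),
    (∀ i, StrictlyCompatible T (V i) (F i)) → (∀ i, PotentiallyGenerated A T (F i) (H i)) →
      0 < lowerDensity (fun v₀ : HeightOneSpectrum (𝓞 K₀) => ∀ i, Ordinary (V i) (H i) v₀) ∧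
      {v₀ : HeightOneSpectrum (𝓞 K₀) | ∀ i, Ordinary (V i) (H i) v₀}.Infinite

theorem ordinary_of_admissible (K₀ K : Type) [Field K₀] [NumberField K₀] [Field K] [NumberField K]
    [Algebra K₀ K] (ℓ : ℕ) [Fact ℓ.Prime] {ι : Type} [Fintype ι] (A : ι → MotSystem K ℓ)
    (χ : GK K →* (PadicAlgCl ℓ)ˣ) (S : ι → Finset ℕ) (hA : ∀ i, (A i).IsMotive χ (S i))
    (hγ : ∃ γ : GK K, ∀ i, (A i).Admissible γ) : GeneratedOrdinary K₀ A := by
  intro T ν _ r V F H hV hF
  obtain ⟨P, -, -, h⟩ := TensorRoots.result K₀ (fun _ => K) (fun _ => ℓ) (fun _ => ι) (fun _ => A)
    (fun _ => χ) (fun _ => S) (fun _ => hA) (fun _ => hγ)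
    (MotSystem.admProportion A / (Module.finrank K₀ K : ℝ)) (fun _ => le_rfl)
  obtain ⟨h1, -, h2⟩ := (h T ν r V F H hV).1 0 hF
  exact ⟨h1, h2⟩

theorem result (K₀ K : Type) [Field K₀] [NumberField K₀] [Field K] [NumberField K] [Algebra K₀ K]
    (ℓ : ℕ) [Fact ℓ.Prime] {ι : Type} [Fintype ι]
    -- the motives `A i` with multiplications
    (A : ι → MotSystem K ℓ) (χ : GK K →* (PadicAlgCl ℓ)ˣ) (B : ι → Finset ℕ)
    (hA : ∀ i, (A i).IsMotive χ (B i))
    -- the fields `E j` and the sets `S j` of embeddings
    {J : Type} [Fintype J] (E : J → Type) [∀ j, Field (E j)] [∀ j, NumberField (E j)]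
    (S : ∀ j, Set (E j →+* AlgebraicClosure K)) (hS : ∀ j, Stable (S j)) :
    (∀ p : ℕ, p.Prime → ¬ p ∣ Module.finrank ℚ K → (∀ j, p ∣ Module.finrank ℚ (E j)) →
      ∑ j, (S j).ncard ≤ p ^ 2 → (∀ i, Small (A i) ∨ ∃ j, SmallOver (A i) (S j) p) →
        GeneratedOrdinary K₀ A) ∧
    ∀ p : J → ℕ, (∀ j, (p j).Prime) → (∀ q, ∑ j : {j // p j = q}, (S j.1).ncard ≤ q ^ 2) →
      (∀ j, ∀ σ ∈ S j, p j ∣ (orbitAt E S p (p j) σ).ncard) →
      (∀ i, Small (A i) ∨ ∃ j, SmallOver (A i) (S j) (p j)) → GeneratedOrdinary K₀ A := by
  classical
  refine ⟨fun p hp hK hE hsum hsmall => ?_, fun p hp hsum horb hsmall => ?_⟩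
  · refine ordinary_of_admissible K₀ K ℓ A χ B hA
      (admissible E S (fun _ => p) hS (fun _ => hp) (fun q => ?_)
        (fun j σ _ => horb_of_degree E S hp hE hK j σ) A hsmall)
    by_cases hq : p = q
    · subst hq
      refine le_trans ?_ hsum
      apply le_of_eq
      exact Fintype.sum_equiv (Equiv.subtypeUnivEquiv (fun _ => rfl)) _ _ (fun _ => rfl)
    · have : IsEmpty {j : J // p = q} := ⟨fun x => hq x.2⟩
      rw [Finset.univ_eq_empty, Finset.sum_empty]
      exact Nat.zero_le _
  · exact ordinary_of_admissible K₀ K ℓ A χ B hA (admissible E S p hS hp hsum horb A hsmall)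

end Pool.Agent.Results.MP_db07cb_ag.PrimeDegreeMultiplications
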