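import Pool.Agent.H887.BK.F8

/-!
# Ordinary primes for almost all weighted hypersurfaces and their quotients

Let `K` be a number field. We consider projective varieties `X / G` over `K` with quotient singularities:
`X` is a quasi-smooth hypersurface of degree `d` in a weighted projective space `P(w_1, …, w_n)` with weights
which divide `d`, and `G` is a finite group of diagonal automorphisms, namely the group of all
`β = (β_1, …, β_n)` with `β_i ^ d = 1` which fix the monomials `x ^ m` for `m` in a given set `M` that contains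
the monomials of the equations (for instance `G` is trivial if `M` is the set of all exponents, and then we
have the weighted hypersurfaces themselves; for `n = d = 5`, `w = 1` and `M = {x_i ^ 5, x_1 ⋯ x_5}` the varieties
are the mirror quintics). As `X / G` has only quotient singularities, its intersection cohomology is its
cohomology, which is the `G`-invariant part of the cohomology of `X`. It is spanned by classes of type
`(i, i)` and by the primitive part in degree `n - 2`.

Let `v` be a place of good reduction with residue field of `p` elements, and `det (1 - T Frob) = ∑ c_m T ^ m`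
the characteristic polynomial of the Frobenius on the primitive part of `IH ^ (n - 2) (X / G)`. The numbers
`pts f r` of points of the quotient of the affine cone `f = 0` by `G` over the extension of degree
`r` (that is the number of `G`-orbits which are mapped to themselves by the Frobenius) compute it: it is
`exp (- ∑ s_r T ^ r / r)` with `s_r = (-1) ^ n (pts f r - p ^ (r (n - 1))) / (p ^ r - 1)`. The Hodge numbers are
the numbers of the monomials `x ^ u`, `0 ≤ u_j ≤ d / w_j - 2`, of weight `∑ w_j (u_j + 1) = (i + 1) d` for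
which `x ^ (u + 1)` is invariant under `G` (Griffiths, Dolgachev, Steenbrink). The place is ordinary if the
Newton polygon is the Hodge polygon; this is the definition `Ordinary` below.

**Families.** `Z` is a set of monomials of weighted degree `d` which contains the pure powers
`x_i ^ (d / w_i)`; the parameters are `t = (t_(u, a))`, `u ∈ Z`, `a < h`, and

  `f_t = ∑_(u ∈ Z) (∑_a ω_a t_(u, a)) x ^ u`

for fixed `ω_a ∈ 𝓞 K` that are not all zero (such as an integral basis, or `ω = 1`). If `Z` consists of all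
monomials of weighted degree `d`, this is the family of all hypersurfaces of degree `d` in
`P(w_1, …, w_n)`, such as the cyclic coverings `y ^ m = f(x)` of a projective space, the double planes, or the
weighted K3 surfaces and Calabi-Yau threefolds with `w_i ∣ d`. Let `N = h |Z|`.

**Theorem.**

1. For `ε > 0` and all but finitely many places `v` of prime norm `p = 1` modulo `d`, at most `ε p ^ N`
   of the `p ^ N` residue classes `t` are such that the variety `{f_t = 0} / G` does not have good (quasi-smooth)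
   ordinary reduction at `v`.
2. For `η > 0` and `0 < θ < 1` there is `A` such that for all `t ∈ [1, X] ^ N` but at most
   `A (X ^ N / Q₀ ^ (1 - θ) + X ^ (N - 1) Q₁ ^ (1 + θ))`, and for ALL `Q` with `Q₀ ≤ Q ≤ Q₁`, the places
   which are ordinary for `{f_t = 0} / G` are at least the proportion `1 / [K(μ_d) : K] - η` of ALL places
   with `N v ≤ Q`.

So 100 percent of the members are ordinary at a positive proportion of all places, at all scales from
`Q₀` to `Q₁`. This is the extension of the hand-in `MP_17d720_ag.BlochKato` (smooth hypersurfaces of projective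
space) to singular varieties.

## Proof

The substitution `x_i = y_i ^ (w_i)` gives a covering of `X` by the smooth hypersurface `Y : f(y ^ w) = 0`
of degree `d` of the projective space, whose equation is a member of a family of
`MP_17d720_ag.BlochKato`; the cohomology of `X / G` is the part of the cohomology of `Y` which is invariant under
the group of all `γ` with `(γ_i ^ (w_i)) ∈ G`. New are: the twisted trace formula for the numbers of solutions of
`y_i ^ q = γ_i y_i`, `f(y ^ w) = 0` (`H253/BK/PTw.lean`, by helper253); the compatibility of the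
matrix of Frobenius, of Dwork's kernels, of the coordinates and of the reduced matrices with the symmetries
(`H337/BK/Gr.lean`, by helper337), which implies that the higher Hasse invariants of the invariant part
divide those of `Y`; the count of the twisted points of weighted hypersurfaces (`H795/BKW/WCnt.lean`,
`H894/BK/WCntT.lean`, by helper795 and helper894); the count of the stable orbits (`H738/BK/Orb.lean`, by
helper738); the averages over the group (`H887/BK/F1.lean`, `F3.lean`, `F7.lean`, `F8.lean`). The exceptional set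
is that of `Y`, which is small by Stepanov's method (`H887/BK/Hyp.lean`), for the
linear family of the equations `f_t(y ^ w)`.
-/

set_option autoImplicit false

open Finset MvPolynomial NumberField IsDedekindDomain

namespace Pool.Agent.Results.MP_db07cb_ag.WeightedQuotients

/-- The finite group `G` of the diagonal automorphisms `β`, `β_i ^ d = 1`, which fix the monomials
`x ^ m`, `m ∈ M`, over the field `k`. -/
def grp (k : Type) [Field k] {n : ℕ} (d : ℕ) (M : Set (Fin n →₀ ℕ)) : Set (Fin n → k) :=
  {β | (∀ i, β i ^ d = 1) ∧ ∀ m ∈ M, ∏ i, β i ^ m i = 1}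

/-- The number of points of the quotient by `G` of the affine cone `f = 0` over the extension of degree
`r` of the finite field `k`, that is the number of the orbits `o = G ξ` of `G` on the cone
over the algebraic closure that are mapped to themselves by the `r`-th power of the Frobenius. -/
noncomputable def pts {k : Type} [Field k] {n : ℕ} (d : ℕ) (M : Set (Fin n →₀ ℕ))
    (f : MvPolynomial (Fin n) k) (r : ℕ) : ℕ :=
  Nat.card {o : Set (Fin n → AlgebraicClosure k) // ∃ ξ : Fin n → AlgebraicClosure k,
    o = {η | ∃ β ∈ grp (AlgebraicClosure k) d M, η = β * ξ} ∧ aeval ξ f = 0 ∧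
      (fun i => ξ i ^ Nat.card k ^ r) ∈ o}

/-- The trace of the `r`-th power of the Frobenius on the primitive part of the intersection
cohomology in degree `n - 2` of the quotient by `G` of the weighted hypersurface `f = 0`. -/
noncomputable def trFrob {k : Type} [Field k] {n : ℕ} (d : ℕ) (M : Set (Fin n →₀ ℕ))
    (f : MvPolynomial (Fin n) k) (r : ℕ) : ℚ :=
  (-1) ^ n * ((pts d M f r : ℚ) - (Nat.card k : ℚ) ^ (r * (n - 1))) / ((Nat.card k : ℚ) ^ r - 1)

/-- `∑ c_m T ^ m = exp (- ∑ trFrob r T ^ r / r)` is the characteristic polynomial `det (1 - T Frob)` of the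
Frobenius on the primitive intersection cohomology (this determines `c`). -/
def IsCharPoly {k : Type} [Field k] {n : ℕ} (d : ℕ) (M : Set (Fin n →₀ ℕ))
    (f : MvPolynomial (Fin n) k) (c : ℕ → ℚ) : Prop :=
  c 0 = 1 ∧ ∀ m : ℕ, ((m : ℚ) + 1) * c (m + 1) =
    -∑ i ∈ range (m + 1), trFrob d M f (i + 1) * c (m - i)

/-- The primitive Hodge number `h ^ (n - 2 - i, i)` of the quotients by `G` of the quasi-smooth
hypersurfaces of degree `d` in the weighted projective space `P(w_1, …, w_n)`. -/
noncomputable def hodge {n : ℕ} (w : Fin n → ℕ) (d : ℕ) (M : Set (Fin n →₀ ℕ)) (i : ℕ) : ℕ :=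
  Nat.card {u : (j : Fin n) → Fin (d / w j - 1) // ∑ j, w j * ((u j : ℕ) + 1) = (i + 1) * d ∧
    ∀ β ∈ grp ℂ d M, ∏ j, β j ^ ((u j : ℕ) + 1) = 1}

/-- The Newton polygon of the characteristic polynomial of the Frobenius on the primitive intersection
cohomology is the Hodge polygon: the points `(m, v_p(c_m))` are not below the lines of slope `j` which
support the Hodge polygon, and the vertices `(∑_(i < j) h_i, ∑_(i < j) i h_i)` of the Hodge
polygon are among them. -/
def Ordinary {k : Type} [Field k] {n : ℕ} (w : Fin n → ℕ) (d : ℕ) (M : Set (Fin n →₀ ℕ))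
    (f : MvPolynomial (Fin n) k) : Prop :=
  ∃ c : ℕ → ℚ, IsCharPoly d M f c ∧
    (∀ m, ∑ i ∈ range n, hodge w d M i < m → c m = 0) ∧
    (∀ m j : ℕ, c m ≠ 0 → (j : ℤ) * m - ∑ i ∈ range j, ((j : ℤ) - i) * hodge w d M i ≤
      padicValRat (Nat.card k) (c m)) ∧
    ∀ j : ℕ, c (∑ i ∈ range j, hodge w d M i) ≠ 0 ∧
      padicValRat (Nat.card k) (c (∑ i ∈ range j, hodge w d M i)) =
        ∑ i ∈ range j, (i : ℤ) * hodge w d M i

/-- The partial derivatives of `f` have no common zero except the origin. -/
def QuasiSmooth {k : Type} [Field k] {n : ℕ} (f : MvPolynomial (Fin n) k) : Prop :=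
  ∀ ξ : Fin n → AlgebraicClosure k, (∀ i, aeval ξ (pderiv i f) = 0) → ξ = 0

/-- The indices of the parameters: a monomial of `Z` and an index `a < h`. -/
abbrev Param {n : ℕ} (Z : Finset (Fin n →₀ ℕ)) (h : ℕ) := {u // u ∈ Z} × Fin h

/-- The weighted form whose coefficient at `x ^ u`, `u ∈ Z`, is `∑_a ω_a t_(u, a)`. -/
noncomputable def member {K : Type} [Field K] [NumberField K] {n h : ℕ}
    (Z : Finset (Fin n →₀ ℕ)) (ω : Fin h → 𝓞 K) (t : Param Z h → ℕ) : MvPolynomial (Fin n) (𝓞 K) :=
  ∑ u : {u // u ∈ Z}, monomial u.1 (∑ a, ω a * (t (u, a) : 𝓞 K))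

/-- The quotient by `G` of the weighted hypersurface `F = 0` has good (quasi-smooth) ordinary reduction
at the place `v` of prime norm. -/
def GoodOrdinary {K : Type} [Field K] [NumberField K] {n : ℕ} (w : Fin n → ℕ) (d : ℕ)
    (M : Set (Fin n →₀ ℕ)) (F : MvPolynomial (Fin n) (𝓞 K)) (v : HeightOneSpectrum (𝓞 K)) : Prop :=
  (Ideal.absNorm v.asIdeal).Prime ∧
    QuasiSmooth (map (algebraMap (𝓞 K) v.asIdeal.ResidueField) F) ∧
    Ordinary w d M (map (algebraMap (𝓞 K) v.asIdeal.ResidueField) F)

open Classical in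
/-- Modulo almost all places of prime norm `p = 1` modulo `d` there are few members without good
ordinary reduction. -/
def FewModPlaces {K : Type} [Field K] [NumberField K] {n h : ℕ} (w : Fin n → ℕ) (d : ℕ)
    (M : Set (Fin n →₀ ℕ)) (Z : Finset (Fin n →₀ ℕ)) (ω : Fin h → 𝓞 K) : Prop :=
  ∀ ε : ℝ, 0 < ε → {v : HeightOneSpectrum (𝓞 K) | (Ideal.absNorm v.asIdeal).Prime ∧
    d ∣ Ideal.absNorm v.asIdeal - 1 ∧
    ε * (Ideal.absNorm v.asIdeal : ℝ) ^ Fintype.card (Param Z h) <
      (((Fintype.piFinset fun _ : Param Z h => range (Ideal.absNorm v.asIdeal)).filter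
        fun t => ¬ GoodOrdinary w d M (member Z ω t) v).card : ℝ)}.Finite

/-- Almost all members have good ordinary reduction at the proportion `1 / [K(μ_d) : K] - η` of all
places, at all scales between `Q₀` and `Q₁`. -/
def AllScales {K : Type} [Field K] [NumberField K] {n h : ℕ} (w : Fin n → ℕ) (d : ℕ)
    (M : Set (Fin n →₀ ℕ)) (Z : Finset (Fin n →₀ ℕ)) (ω : Fin h → 𝓞 K) : Prop :=
  ∀ η : ℝ, 0 < η → ∀ θ : ℝ, 0 < θ → θ < 1 → ∃ A : ℝ, ∀ X Q₀ Q₁ : ℕ, 1 ≤ Q₀ →
    ({t : Param Z h → ℕ | (∀ i, 1 ≤ t i ∧ t i ≤ X) ∧ ∃ Q, Q₀ ≤ Q ∧ Q ≤ Q₁ ∧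
      (Nat.card {v : HeightOneSpectrum (𝓞 K) // Ideal.absNorm v.asIdeal ≤ Q ∧
        GoodOrdinary w d M (member Z ω t) v} : ℝ) <
      (1 / (Module.finrank K (CyclotomicField d K) : ℝ) - η) *
        Nat.card {v : HeightOneSpectrum (𝓞 K) // Ideal.absNorm v.asIdeal ≤ Q}}.ncard : ℝ) ≤
    A * ((X : ℝ) ^ Fintype.card (Param Z h) * (Q₀ : ℝ) ^ (θ - 1) +
      (X : ℝ) ^ (Fintype.card (Param Z h) - 1) * (Q₁ : ℝ) ^ (1 + θ))

lemma map_member {K : Type} [Field K] [NumberField K] {n h : ℕ} (Z : Finset (Fin n →₀ ℕ))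
    (ω : Fin h → 𝓞 K) (v : HeightOneSpectrum (𝓞 K)) (hv : (Ideal.absNorm v.asIdeal).Prime)
    (t : Param Z h → ℕ) : map (algebraMap (𝓞 K) v.asIdeal.ResidueField) (member Z ω t) =
      map (algebraMap (𝓞 K) v.asIdeal.ResidueField)
        (member Z ω fun j => t j % Ideal.absNorm v.asIdeal) := by
  have := Pool.Agent.Q267.OD.charP_res v hv
  rw [member, member, map_sum, map_sum]
  refine sum_congr rfl fun u _ => ?_
  rw [map_monomial, map_monomial]
  congr 1
  rw [map_sum, map_sum]
  refine sum_congr rfl fun a _ => ?_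
  rw [map_mul, map_mul, map_natCast, map_natCast]
  congr 1
  exact (CharP.natCast_eq_natCast' _ (Ideal.absNorm v.asIdeal) (Nat.mod_modEq _ _)).symm

open Pool.Agent.H887.BK in
lemma goodOrdinary_of_nice {K : Type} [Field K] [NumberField K] {n h e : ℕ} (hn : 1 ≤ n)
    (he : 0 < e) (w : Fin n → ℕ) (hw : ∀ i, w i ∣ e + 1) (Z : Finset (Fin n →₀ ℕ))
    (hZ : ∀ u ∈ Z, ∑ i, w i * u i = e + 1) (hZ' : ∀ i, Finsupp.single i ((e + 1) / w i) ∈ Z)
    (M : Set (Fin n →₀ ℕ)) (hM : ∀ u ∈ Z, u ∈ M)
    (ω : Fin h → 𝓞 K) (v : HeightOneSpectrum (𝓞 K)) (p : ℕ)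
    [hp : Fact p.Prime] (hv : Ideal.absNorm v.asIdeal = p) (hp1 : p ≡ 1 [MOD (e + 1)])
    (hge : P0 (Fin n) e ≤ p) (φ : ZMod p →+* v.asIdeal.ResidueField) (t : Param Z h → ℕ)
    (c : Par (supW w hw Z hZ hZ') → ZMod p)
    (hc : ∀ u, φ (c (eqvW w hw Z hZ hZ' u)) =
      algebraMap (𝓞 K) v.asIdeal.ResidueField (∑ a, ω a * (t (u, a) : 𝓞 K)))
    (hN : Nice p e he c) : GoodOrdinary w (e + 1) M (member Z ω t) v := by
  classical
  have hne : Nonempty (Fin n) := ⟨⟨0, hn⟩⟩
  have hcard : Nat.card v.asIdeal.ResidueField = p := by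
    rw [Pool.Agent.Q267.DC.card_res, hv]
  have hchar : CharP v.asIdeal.ResidueField p := by
    have := Pool.Agent.Q267.OD.charP_res v (by rw [hv]; exact hp.out)
    rwa [hv] at this
  set k := v.asIdeal.ResidueField with hk
  have hcharb : CharP (AlgebraicClosure k) p :=
    charP_of_injective_algebraMap (algebraMap k (AlgebraicClosure k)).injective p
  set ψ : ZMod p →+* AlgebraicClosure k := (algebraMap k (AlgebraicClosure k)).comp φ with hψ
  have hN' : Nice p e he (fun u => ψ (c u)) := Nice_map he ψ c hN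
  have hcp : ∀ u, (fun u => ψ (c u)) u ^ p = (fun u => ψ (c u)) u := by
    intro u
    change ψ (c u) ^ p = ψ (c u)
    rw [← map_pow, ZMod.pow_card]
  have hform : map (algebraMap k (AlgebraicClosure k)) (map (algebraMap (𝓞 K) k)
      (member Z ω t)) = wform w (fun u => ψ (c u)) := by
    rw [wform_eqv, member, map_sum, map_sum]
    refine sum_congr rfl fun u _ => ?_
    rw [map_monomial, map_monomial, ← hc u]
    rfl
  have h1 := wsmooth he w hw (supW_w w hw Z hZ hZ') (fun u => ψ (c u)) hN'
  obtain ⟨C, hC0, hC1, hC2, hC3, hC4⟩ := quot_good hn he hp1 hge w hw Z hZ hZ' M hM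
    (fun u => ψ (c u)) hcp hN'
  rw [← hform] at h1 hC1
  have hhodge : ∀ i, Nat.card (WI w (e + 1) M i) = hodge w (e + 1) M i := fun i => rfl
  simp only [hhodge] at hC2 hC3 hC4
  have hpts : ∀ r, Norb (e + 1) M p (map (algebraMap k (AlgebraicClosure k))
      (map (algebraMap (𝓞 K) k) (member Z ω t))) r =
      pts (e + 1) M (map (algebraMap (𝓞 K) k) (member Z ω t)) r := by
    intro r
    unfold Norb pts
    rw [hcard]
    simp only [eval_map, aeval_def]
    rfl
  refine ⟨by rw [hv]; exact hp.out, ?_, C, ⟨hC0, ?_⟩, hC2, ?_, ?_⟩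
  · intro ξ hξ
    apply h1 ξ
    intro i
    rw [pderiv_map, eval_map]
    exact hξ i
  · intro m
    rw [hC1 m]
    congr 1
    refine sum_congr rfl fun i _ => ?_
    rw [trFrob, hcard, hpts]
  · intro m j hm
    rw [hcard]
    refine le_trans (le_of_eq ?_) (hC3 m j hm)
    push_cast
    congr 1
    refine sum_congr rfl fun i hi => ?_
    rw [Nat.cast_sub (mem_range.1 hi).le]
    ring
  · intro j
    refine ⟨(hC4 j).1, ?_⟩
    rw [hcard, (hC4 j).2]
    push_cast
    exact sum_congr rfl fun i _ => mul_comm _ _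

open Pool.Agent.H887.BK in
/-- **Ordinary primes for almost all weighted hypersurfaces and their quotients.** See above. -/
theorem result (K : Type) [Field K] [NumberField K] (n d h : ℕ) (w : Fin n → ℕ)
    (M : Set (Fin n →₀ ℕ)) (Z : Finset (Fin n →₀ ℕ)) (ω : Fin h → 𝓞 K) (hn : 1 ≤ n) (hd : 2 ≤ d)
    (hw : ∀ i, w i ∣ d) (hM : ∀ u ∈ Z, u ∈ M) (hZ : ∀ u ∈ Z, ∑ i, w i * u i = d)
    (hZ' : ∀ i, Finsupp.single i (d / w i) ∈ Z) (hω : ∃ a, ω a ≠ 0) :
    FewModPlaces w d M Z ω ∧ AllScales w d M Z ω := by
  classical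
  obtain ⟨e, rfl⟩ : ∃ e, d = e + 1 := ⟨d - 1, by omega⟩
  have he : 0 < e := by omega
  obtain ⟨a₀, ha₀⟩ := hω
  have hfew := fun ε hε => few_abs (K := K) he (supW w hw Z hZ hZ') ω a₀ ha₀
    (eqvW w hw Z hZ hZ') (fun v t => GoodOrdinary w (e + 1) M (member Z ω t) v)
    (fun v p _ hv hp1 hge φ t c hc hN =>
      goodOrdinary_of_nice hn he w hw Z hZ hZ' M hM ω v p hv hp1 hge φ t c hc hN) ε hε
  refine ⟨fun ε hε => (hfew ε hε).subset fun v hv => ⟨hv.1, hv.2.1, fun h => ?_⟩,
    fun η hη θ hθ0 hθ1 => ?_⟩
  · exact lt_irrefl _ (lt_of_lt_of_le hv.2.2 h)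
  · have hnon : Nonempty (Param Z h) := ⟨(⟨_, hZ' ⟨0, hn⟩⟩, a₀)⟩
    refine Pool.Agent.H887.BK.allscalesP (e + 1)
      (fun v t => GoodOrdinary w (e + 1) M (member Z ω t) v) (fun v hv t => ?_) ?_ η hη θ hθ0 hθ1
    · unfold GoodOrdinary
      rw [map_member Z ω v hv t]
    · intro ε hε
      refine (hfew ε hε).subset fun v hv => ⟨hv.1, hv.2.1, fun h => hv.2.2 ?_⟩
      refine le_trans (le_of_eq ?_) h
      refine congrArg Nat.cast (congrArg Finset.card (Finset.ext fun x => ?_))
      simp only [mem_filter, Fintype.mem_piFinset]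

end Pool.Agent.Results.MP_db07cb_ag.WeightedQuotients
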